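import Mathlib
import Pool.Agent.N753.DR.Stm6
import Pool.Agent.N262.DR.Box

/-!
PC/PXA: a polynomial is rarely small at tuples of zeros of small polynomials.
-/

set_option autoImplicit false
set_option linter.unusedSectionVars false

namespace Pool.Agent.N434.PC

open NumberField IsDedekindDomain Module Polynomial Pool.Agent.N753.DR

variable {K : Type} [Field K] [NumberField K]

/-- conjugates are bounded by the coordinates -/
theorem conj_bound (σ : K →+* ℂ) : ∃ C : ℝ, 1 ≤ C ∧ ∀ (z : 𝓞 K) (X : ℕ), sz z ≤ X →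
    ‖σ (z : K)‖ ≤ C * X := by
  classical
  set b := RingOfIntegers.basis K with hb
  refine ⟨1 + ∑ i, ‖σ (b i : K)‖, ?_, ?_⟩
  · have : 0 ≤ ∑ i, ‖σ (b i : K)‖ := Finset.sum_nonneg fun _ _ => norm_nonneg _
    linarith
  · intro z X hz
    have h1 : (z : K) = ∑ i, ((b.repr z i : ℤ) : K) * (b i : K) := by
      have h0 := congrArg (algebraMap (𝓞 K) K) (b.sum_repr z).symm
      rw [map_sum] at h0
      refine h0.trans (Finset.sum_congr rfl fun i _ => ?_)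
      rw [zsmul_eq_mul, map_mul, map_intCast]
    rw [h1, map_sum]
    refine (norm_sum_le _ _).trans ?_
    have h2 : ∀ i, ‖σ (((b.repr z i : ℤ) : K) * (b i : K))‖ ≤ ‖σ (b i : K)‖ * X := by
      intro i
      rw [map_mul, map_intCast, norm_mul, mul_comm]
      refine mul_le_mul_of_nonneg_left ?_ (norm_nonneg _)
      rw [Complex.norm_intCast]
      have := (Pool.Agent.N262.DR.sz_le_iff.mp hz) i
      exact_mod_cast this
    refine (Finset.sum_le_sum fun i _ => h2 i).trans ?_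
    rw [← Finset.sum_mul]
    have : (0 : ℝ) ≤ X := Nat.cast_nonneg X
    nlinarith

theorem box_card (n X : ℕ) (hX : 1 ≤ X) :
    ((Bx K n X).ncard : ℝ) ≤ 3 ^ (finrank ℚ K * n) * (X : ℝ) ^ ((finrank ℚ K : ℝ) * n) := by
  have h := Pool.Agent.N262.DR.Bx_card (K := K) n X
  have h2 : ((Bx K n X).ncard : ℝ) ≤ ((2 * X + 1 : ℕ) : ℝ) ^ (finrank ℚ K * n) := by
    exact_mod_cast h
  refine h2.trans ?_
  have h3 : ((2 * X + 1 : ℕ) : ℝ) ≤ 3 * X := by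
    have : (1 : ℝ) ≤ X := by exact_mod_cast hX
    push_cast
    linarith
  calc ((2 * X + 1 : ℕ) : ℝ) ^ (finrank ℚ K * n) ≤ (3 * X) ^ (finrank ℚ K * n) := by gcongr
    _ = 3 ^ (finrank ℚ K * n) * (X : ℝ) ^ ((finrank ℚ K : ℝ) * n) := by
      rw [mul_pow, ← Real.rpow_natCast (X : ℝ)]
      push_cast
      rfl

theorem fib {X Y : Type*} (S : Set (X × Y)) (T : Set Y) (hT : T.Finite) (F : Y → Set X)
    (hF : ∀ y, (F y).Finite) (M : ℝ) (h3 : ∀ y ∈ T, ((F y).ncard : ℝ) ≤ M)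
    (h1 : ∀ p ∈ S, p.2 ∈ T ∧ p.1 ∈ F p.2) : S.Finite ∧ (S.ncard : ℝ) ≤ M * T.ncard := by
  classical
  set U : Finset (X × Y) := hT.toFinset.biUnion fun y => (hF y).toFinset.image fun x => (x, y)
    with hU
  have hSU : S ⊆ (U : Set (X × Y)) := by
    intro p hp
    obtain ⟨h4, h5⟩ := h1 p hp
    rw [hU, Finset.mem_coe, Finset.mem_biUnion]
    refine ⟨p.2, by simpa using h4, ?_⟩
    rw [Finset.mem_image]
    exact ⟨p.1, by simpa using h5, rfl⟩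
  refine ⟨U.finite_toSet.subset hSU, ?_⟩
  have h6 : S.ncard ≤ U.card := by
    have := Set.ncard_le_ncard hSU U.finite_toSet
    rwa [Set.ncard_coe_finset] at this
  have h7 : (U.card : ℝ) ≤ ∑ y ∈ hT.toFinset, ((F y).ncard : ℝ) := by
    have h8 : U.card ≤ ∑ y ∈ hT.toFinset, (F y).ncard := by
      refine Finset.card_biUnion_le.trans (Finset.sum_le_sum fun y _ => ?_)
      refine Finset.card_image_le.trans ?_
      rw [Set.ncard_eq_toFinset_card _ (hF y)]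
    exact_mod_cast h8
  calc (S.ncard : ℝ) ≤ U.card := by exact_mod_cast h6
    _ ≤ ∑ y ∈ hT.toFinset, ((F y).ncard : ℝ) := h7
    _ ≤ ∑ _y ∈ hT.toFinset, M := Finset.sum_le_sum fun y hy => h3 y (by simpa using hy)
    _ = M * T.ncard := by
      rw [Finset.sum_const, nsmul_eq_mul, Set.ncard_eq_toFinset_card _ hT, mul_comm]

/-! ### polynomials -/

/-- the polynomial with the coefficients `σ (c j)` -/
noncomputable def pol (σ : K →+* ℂ) {n : ℕ} (c : Fin n → 𝓞 K) : ℂ[X] :=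
  ∑ j, C (σ (c j : K)) * X ^ (j : ℕ)

theorem pol_eval (σ : K →+* ℂ) {n : ℕ} (c : Fin n → 𝓞 K) (z : ℂ) :
    (pol σ c).eval z = ∑ j, σ (c j : K) * z ^ (j : ℕ) := by
  simp [pol, eval_finsetSum]

theorem pol_coeff (σ : K →+* ℂ) {n : ℕ} (c : Fin n → 𝓞 K) (j : Fin n) :
    (pol σ c).coeff j = σ (c j : K) := by
  unfold pol
  rw [finsetSum_coeff, Finset.sum_eq_single j]
  · simp
  · intro i _ hij
    rw [coeff_C_mul, coeff_X_pow, if_neg, mul_zero]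
    intro h
    exact hij (Fin.ext h.symm)
  · intro h
    exact absurd (Finset.mem_univ j) h

theorem pol_coeff_ge (σ : K →+* ℂ) {n : ℕ} (c : Fin n → 𝓞 K) (i : ℕ) (hi : n ≤ i) :
    (pol σ c).coeff i = 0 := by
  unfold pol
  rw [finsetSum_coeff]
  refine Finset.sum_eq_zero fun j _ => ?_
  rw [coeff_C_mul, coeff_X_pow, if_neg, mul_zero]
  have := j.2
  omega

theorem pol_natDegree (σ : K →+* ℂ) {r : ℕ} (c : Fin (r + 1) → 𝓞 K) :
    (pol σ c).natDegree ≤ r := by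
  rw [natDegree_le_iff_coeff_eq_zero]
  intro i hi
  exact pol_coeff_ge σ c i (by omega)

theorem pol_ne (σ : K →+* ℂ) {n : ℕ} (c : Fin n → 𝓞 K) (hc : c ≠ 0) : pol σ c ≠ 0 := by
  intro h
  apply hc
  funext j
  have h1 := pol_coeff σ c j
  rw [h, coeff_zero] at h1
  have h2 : (c j : K) = 0 := by
    apply σ.injective
    rw [← h1, map_zero]
  exact_mod_cast h2

theorem step_point (σ : K →+* ℂ) {r0 q0 : ℕ} {CR : ℝ}
    (hCR : ∀ (h f : ℂ[X]) (z : ℂ) (δ : ℝ),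
      h.natDegree ≤ q0 → f.natDegree ≤ r0 → f.eval z = 0 → 0 < δ → (∀ i, ‖f.coeff i‖ ≤ 1) →
      (∃ j, 1 ≤ ‖h.coeff j‖) → ‖h.eval z‖ ≤ δ * max 1 ‖z‖ ^ q0 →
        (∃ y : ℂ, h.eval y = 0 ∧ ‖f.eval y‖ ≤ CR * δ ^ (1 / ((q0 : ℝ) + 1)) * max 1 ‖y‖ ^ r0) ∨
          ‖f.coeff r0‖ ≤ CR * δ ^ (1 / ((q0 : ℝ) + 1)))
    {C1 : ℝ} (hC1 : 1 ≤ C1)
    (hconj : ∀ (z : 𝓞 K) (X : ℕ), sz z ≤ X → ‖σ (z : K)‖ ≤ C1 * X) {X : ℕ} (hX : 1 ≤ X)
    (c0 : Fin (r0 + 1) → 𝓞 K) (hc0 : c0 ∈ Bx K (r0 + 1) X) (h : ℂ[X]) (hh : h.natDegree ≤ q0)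
    (j : ℕ) (hj : 1 ≤ ‖h.coeff j‖) (z0 : ℂ) (hz : ∑ j, σ (c0 j : K) * z0 ^ (j : ℕ) = 0) (δ : ℝ)
    (hδ : 0 < δ) (hsm : ‖h.eval z0‖ ≤ δ * max 1 ‖z0‖ ^ q0) :
    (∃ y : ℂ, h.eval y = 0 ∧
      ‖∑ j, σ (c0 j : K) * (y ^ (j : ℕ) / ((max 1 ‖y‖ ^ r0 : ℝ) : ℂ))‖ ≤
        C1 * X * (CR * δ ^ (1 / ((q0 : ℝ) + 1)))) ∨
      ‖σ (c0 (Fin.last r0) : K)‖ ≤ C1 * X * (CR * δ ^ (1 / ((q0 : ℝ) + 1))) := by
  have hX' : (1 : ℝ) ≤ X := by exact_mod_cast hX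
  set L : ℝ := C1 * X with hL
  have hL0 : 0 < L := by positivity
  have hLC : (L : ℂ) ≠ 0 := by exact_mod_cast hL0.ne'
  set f : ℂ[X] := C ((L : ℂ)⁻¹) * pol σ c0 with hf
  have hfe : ∀ y, f.eval y = (L : ℂ)⁻¹ * ∑ j, σ (c0 j : K) * y ^ (j : ℕ) := by
    intro y
    rw [hf, eval_mul, eval_C, pol_eval]
  have hLn : ‖(L : ℂ)⁻¹‖ = L⁻¹ := by
    rw [norm_inv, Complex.norm_real, Real.norm_of_nonneg hL0.le]
  have h1 := hCR h f z0 δ hh ?_ ?_ hδ ?_ ⟨j, hj⟩ hsm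
  · rcases h1 with ⟨y, hy1, hy2⟩ | h2
    · left
      refine ⟨y, hy1, ?_⟩
      have hm : 0 < max 1 ‖y‖ ^ r0 := by positivity
      have e1 : ∑ j, σ (c0 j : K) * (y ^ (j : ℕ) / ((max 1 ‖y‖ ^ r0 : ℝ) : ℂ)) =
          (∑ j, σ (c0 j : K) * y ^ (j : ℕ)) / ((max 1 ‖y‖ ^ r0 : ℝ) : ℂ) := by
        rw [Finset.sum_div]
        exact Finset.sum_congr rfl fun j _ => by rw [mul_div_assoc]
      rw [hfe, norm_mul, hLn] at hy2
      rw [e1, norm_div, Complex.norm_real, Real.norm_of_nonneg hm.le, div_le_iff₀ hm]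
      rw [inv_mul_le_iff₀ hL0] at hy2
      calc _ ≤ _ := hy2
        _ = _ := by ring
    · right
      have e1 : f.coeff r0 = (L : ℂ)⁻¹ * σ (c0 (Fin.last r0) : K) := by
        rw [hf, coeff_C_mul]
        congr 1
        exact pol_coeff σ c0 (Fin.last r0)
      rw [e1, norm_mul, hLn, inv_mul_le_iff₀ hL0] at h2
      exact h2
  · rw [hf]
    exact (natDegree_C_mul_le _ _).trans (pol_natDegree σ c0)
  · rw [hfe, hz, mul_zero]
  · intro i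
    rw [hf, coeff_C_mul, norm_mul, hLn, inv_mul_le_iff₀ hL0, mul_one]
    by_cases hi : i < r0 + 1
    · have := pol_coeff σ c0 ⟨i, hi⟩
      simp only at this
      rw [this]
      exact hconj _ _ (hc0 _)
    · rw [pol_coeff_ge σ c0 i (by omega), norm_zero]
      exact hL0.le

/-! ### counting -/

open Classical in
/-- tuples of zeros -/
noncomputable def Zf (σ : K →+* ℂ) {m : ℕ} {r : Fin m → ℕ} (y : ∀ i, Fin (r i + 1) → 𝓞 K) :
    Finset (Fin m → ℂ) :=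
  Fintype.piFinset fun i => (pol σ (y i)).roots.toFinset

open Classical in
/-- zeros of the specialisations -/
noncomputable def Yf (σ : K →+* ℂ) {m : ℕ} {r : Fin m → ℕ} (H : (MvPolynomial (Fin m) ℂ)[X])
    (y : ∀ i, Fin (r i + 1) → 𝓞 K) : Finset ℂ :=
  (Zf σ y).biUnion fun z => (H.map (MvPolynomial.eval z)).roots.toFinset

/-- the vector of powers -/
noncomputable def bv (r0 : ℕ) (w : ℂ) : Fin (r0 + 1) → ℂ :=
  fun j => w ^ (j : ℕ) / ((max 1 ‖w‖ ^ r0 : ℝ) : ℂ)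

open Classical in
/-- the linear forms -/
noncomputable def Bf (σ : K →+* ℂ) (r0 : ℕ) {m : ℕ} {r : Fin m → ℕ}
    (H : (MvPolynomial (Fin m) ℂ)[X]) (y : ∀ i, Fin (r i + 1) → 𝓞 K) :
    Finset (Fin (r0 + 1) → ℂ) :=
  insert (Pi.single (Fin.last r0) 1) ((Yf σ H y).image (bv r0))

/-- the vectors at which one of the linear forms is small -/
def Fy (σ : K →+* ℂ) (r0 : ℕ) {m : ℕ} {r : Fin m → ℕ} (H : (MvPolynomial (Fin m) ℂ)[X])
    (X : ℕ) (η : ℝ) (y : ∀ i, Fin (r i + 1) → 𝓞 K) : Set (Fin (r0 + 1) → 𝓞 K) :=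
  {c | ∃ b ∈ Bf σ r0 H y, c ∈ Bx K (r0 + 1) X ∧ ‖∑ j, σ (c j : K) * b j‖ ≤ η}

theorem card_Zf (σ : K →+* ℂ) {m : ℕ} {r : Fin m → ℕ} (y : ∀ i, Fin (r i + 1) → 𝓞 K) :
    (Zf σ y).card ≤ ∏ i, r i := by
  classical
  unfold Zf
  rw [Fintype.card_piFinset]
  refine Finset.prod_le_prod' fun i _ => ?_
  exact (Multiset.toFinset_card_le _).trans ((card_roots' _).trans (pol_natDegree σ _))

theorem card_Yf (σ : K →+* ℂ) {m : ℕ} {r : Fin m → ℕ} (H : (MvPolynomial (Fin m) ℂ)[X]) {q0 : ℕ}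
    (hH : H.natDegree ≤ q0) (y : ∀ i, Fin (r i + 1) → 𝓞 K) :
    (Yf σ H y).card ≤ (∏ i, r i) * q0 := by
  classical
  unfold Yf
  refine (Finset.card_biUnion_le_card_mul _ _ q0 fun z _ => ?_).trans
    (Nat.mul_le_mul_right _ (card_Zf σ y))
  exact (Multiset.toFinset_card_le _).trans ((card_roots' _).trans
    ((natDegree_map_le).trans hH))

theorem card_Bf (σ : K →+* ℂ) (r0 : ℕ) {m : ℕ} {r : Fin m → ℕ} (H : (MvPolynomial (Fin m) ℂ)[X])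
    {q0 : ℕ} (hH : H.natDegree ≤ q0) (y : ∀ i, Fin (r i + 1) → 𝓞 K) :
    (Bf σ r0 H y).card ≤ (∏ i, r i) * q0 + 1 := by
  classical
  unfold Bf
  refine (Finset.card_insert_le _ _).trans (Nat.add_le_add_right ?_ _)
  exact Finset.card_image_le.trans (card_Yf σ H hH y)

theorem bv_big (r0 : ℕ) (w : ℂ) : ∃ j, 1 ≤ ‖bv r0 w j‖ := by
  rcases le_total ‖w‖ 1 with h | h
  · refine ⟨0, ?_⟩
    simp [bv, max_eq_left h]
  · refine ⟨Fin.last r0, ?_⟩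
    have : 0 < ‖w‖ := by linarith
    simp only [bv, Fin.val_last, max_eq_right h, norm_div, norm_pow, Complex.norm_real,
      Real.norm_of_nonneg (pow_pos this r0).le]
    rw [div_self (pow_pos this r0).ne']

theorem Bf_big (σ : K →+* ℂ) (r0 : ℕ) {m : ℕ} {r : Fin m → ℕ} (H : (MvPolynomial (Fin m) ℂ)[X])
    (y : ∀ i, Fin (r i + 1) → 𝓞 K) (b : Fin (r0 + 1) → ℂ) (hb : b ∈ Bf σ r0 H y) :
    ∃ j, 1 ≤ ‖b j‖ := by
  classical
  unfold Bf at hb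
  rw [Finset.mem_insert, Finset.mem_image] at hb
  rcases hb with rfl | ⟨w, _, rfl⟩
  · exact ⟨Fin.last r0, by simp⟩
  · exact bv_big r0 w

theorem Fy_finite (σ : K →+* ℂ) (r0 : ℕ) {m : ℕ} {r : Fin m → ℕ}
    (H : (MvPolynomial (Fin m) ℂ)[X]) (X : ℕ) (η : ℝ) (y : ∀ i, Fin (r i + 1) → 𝓞 K) :
    (Fy σ r0 H X η y).Finite :=
  (Pool.Agent.N262.DR.Bx_finite (r0 + 1) X).subset fun _ hc => by
    obtain ⟨_, _, h, _⟩ := hc
    exact h

theorem Fy_card (σ : K →+* ℂ) (r0 : ℕ) {CL : ℝ}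
    (hCL : ∀ b : Fin (r0 + 1) → ℂ, (∃ j, 1 ≤ ‖b j‖) → ∀ (X : ℕ) (η : ℝ), 1 ≤ X → 0 ≤ η →
      ({c ∈ Bx K (r0 + 1) X | ‖∑ j, σ (c j : K) * b j‖ ≤ η}.ncard : ℝ) ≤
        CL * (X : ℝ) ^ ((finrank ℚ K : ℝ) * (r0 + 1 : ℕ) - 1) * (1 + η))
    {m : ℕ} {r : Fin m → ℕ} (H : (MvPolynomial (Fin m) ℂ)[X]) {q0 : ℕ} (hH : H.natDegree ≤ q0)
    (X : ℕ) (hX : 1 ≤ X) (η : ℝ) (hη : 0 ≤ η) (y : ∀ i, Fin (r i + 1) → 𝓞 K) :
    ((Fy σ r0 H X η y).ncard : ℝ) ≤ (((∏ i, r i) * q0 + 1 : ℕ) : ℝ) *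
      (CL * (X : ℝ) ^ ((finrank ℚ K : ℝ) * (r0 + 1 : ℕ) - 1) * (1 + η)) := by
  classical
  set M := CL * (X : ℝ) ^ ((finrank ℚ K : ℝ) * (r0 + 1 : ℕ) - 1) * (1 + η) with hM
  have hfin : ∀ b : Fin (r0 + 1) → ℂ,
      {c ∈ Bx K (r0 + 1) X | ‖∑ j, σ (c j : K) * b j‖ ≤ η}.Finite := fun b =>
    (Pool.Agent.N262.DR.Bx_finite (r0 + 1) X).subset fun _ hc => hc.1
  set U : Finset (Fin (r0 + 1) → 𝓞 K) := (Bf σ r0 H y).biUnion fun b => (hfin b).toFinset with hU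
  have h1 : Fy σ r0 H X η y ⊆ (U : Set _) := by
    rintro c ⟨b, hb, hc1, hc2⟩
    rw [hU, Finset.mem_coe, Finset.mem_biUnion]
    refine ⟨b, hb, ?_⟩
    rw [Set.Finite.mem_toFinset]
    exact ⟨hc1, hc2⟩
  have h2 : (Fy σ r0 H X η y).ncard ≤ U.card := by
    have := Set.ncard_le_ncard h1 U.finite_toSet
    rwa [Set.ncard_coe_finset] at this
  have h3 : (U.card : ℝ) ≤ ∑ b ∈ Bf σ r0 H y, M := by
    have h4 : (U.card : ℝ) ≤ ∑ b ∈ Bf σ r0 H y, ((hfin b).toFinset.card : ℝ) := by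
      exact_mod_cast Finset.card_biUnion_le
    refine h4.trans (Finset.sum_le_sum fun b hb => ?_)
    rw [← Set.ncard_eq_toFinset_card _ (hfin b)]
    exact hCL b (Bf_big σ r0 H y b hb) X η hX hη
  rw [Finset.sum_const, nsmul_eq_mul] at h3
  have hM0 : 0 ≤ M := le_trans (Nat.cast_nonneg _)
    (hCL (Pi.single (Fin.last r0) 1) ⟨Fin.last r0, by simp⟩ X η hX hη)
  calc ((Fy σ r0 H X η y).ncard : ℝ) ≤ U.card := by exact_mod_cast h2
    _ ≤ _ := h3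
    _ ≤ _ := by
      refine mul_le_mul_of_nonneg_right ?_ hM0
      exact_mod_cast card_Bf σ r0 H hH y

/-- the box of tuples -/
def TB (K : Type) [Field K] [NumberField K] {m : ℕ} (r X : Fin m → ℕ) :
    Set (∀ i, Fin (r i + 1) → 𝓞 K) := {c | ∀ i, c i ∈ Bx K (r i + 1) (X i)}

theorem TB_card {m : ℕ} (r X : Fin m → ℕ) (hX : ∀ i, 1 ≤ X i) : (TB K r X).Finite ∧
    ((TB K r X).ncard : ℝ) ≤ ∏ i, (3 ^ (finrank ℚ K * (r i + 1)) *
      (X i : ℝ) ^ ((finrank ℚ K : ℝ) * (r i + 1 : ℕ))) := by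
  classical
  have hfin : ∀ i, (Bx K (r i + 1) (X i)).Finite := fun i => Pool.Agent.N262.DR.Bx_finite _ _
  have h1 : TB K r X = (Fintype.piFinset fun i => (hfin i).toFinset : Finset _) := by
    ext c
    simp [TB]
  rw [h1]
  refine ⟨Finset.finite_toSet _, ?_⟩
  rw [Set.ncard_coe_finset, Fintype.card_piFinset]
  push_cast
  refine Finset.prod_le_prod (fun _ _ => Nat.cast_nonneg _) fun i _ => ?_
  rw [← Set.ncard_eq_toFinset_card _ (hfin i)]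
  have := box_card (K := K) (r i + 1) (X i) (hX i)
  push_cast at this
  exact this

/-! ### the induction -/

/-- the exceptional set -/
def PS (K : Type) [Field K] [NumberField K] (σ : K →+* ℂ) {m : ℕ} (r ρ q : Fin m → ℕ)
    (G : MvPolynomial (Fin m) ℂ) (κ : ℝ) (B : ℕ) : Set (∀ i, Fin (r i + 1) → 𝓞 K) :=
  {c : ∀ i, Fin (r i + 1) → 𝓞 K | (∀ i, c i ∈ Bx K (r i + 1) (B ^ ρ i) ∧ c i ≠ 0) ∧
    ∃ z : Fin m → ℂ, (∀ i, ∑ j, σ (c i j : K) * z i ^ (j : ℕ) = 0) ∧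
      ‖MvPolynomial.eval z G‖ ≤ (B : ℝ) ^ (-κ) * ∏ i, max 1 ‖z i‖ ^ q i}

theorem mem_Zf (σ : K →+* ℂ) {m : ℕ} {r : Fin m → ℕ} (y : ∀ i, Fin (r i + 1) → 𝓞 K)
    (hy : ∀ i, y i ≠ 0) (z : Fin m → ℂ) (hz : ∀ i, ∑ j, σ (y i j : K) * z i ^ (j : ℕ) = 0) :
    z ∈ Zf σ y := by
  classical
  unfold Zf
  rw [Fintype.mem_piFinset]
  intro i
  rw [Multiset.mem_toFinset, mem_roots (pol_ne σ _ (hy i)), IsRoot.def, pol_eval]
  exact hz i

theorem incl (σ : K →+* ℂ) {m : ℕ} {r ρ q : Fin (m + 1) → ℕ} {G : MvPolynomial (Fin (m + 1)) ℂ}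
    {κ : ℝ} {B : ℕ} (hB : 1 ≤ B) (j0 : ℕ)
    (hq : G.degreeOf 0 ≤ q 0) {CR : ℝ}
    (hCR : ∀ (h f : ℂ[X]) (z : ℂ) (δ : ℝ),
      h.natDegree ≤ q 0 → f.natDegree ≤ r 0 → f.eval z = 0 → 0 < δ → (∀ i, ‖f.coeff i‖ ≤ 1) →
      (∃ j, 1 ≤ ‖h.coeff j‖) → ‖h.eval z‖ ≤ δ * max 1 ‖z‖ ^ q 0 →
        (∃ y : ℂ, h.eval y = 0 ∧
          ‖f.eval y‖ ≤ CR * δ ^ (1 / ((q 0 : ℝ) + 1)) * max 1 ‖y‖ ^ r 0) ∨
          ‖f.coeff (r 0)‖ ≤ CR * δ ^ (1 / ((q 0 : ℝ) + 1)))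
    {C1 : ℝ} (hC1 : 1 ≤ C1)
    (hconj : ∀ (z : 𝓞 K) (X : ℕ), sz z ≤ X → ‖σ (z : K)‖ ≤ C1 * X)
    (c : ∀ i, Fin (r i + 1) → 𝓞 K) (hc : c ∈ PS K σ r ρ q G κ B) :
    (c 0 ∈ Bx K (r 0 + 1) (B ^ ρ 0) ∧ (fun i : Fin m => c i.succ) ∈
      PS K σ (fun i => r i.succ) (fun i => ρ i.succ) (fun i => q i.succ)
        ((MvPolynomial.finSuccEquiv ℂ m G).coeff j0) (κ / 2) B) ∨
    ((fun i : Fin m => c i.succ) ∈ TB K (fun i => r i.succ) (fun i => B ^ ρ i.succ) ∧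
      c 0 ∈ Fy σ (r 0) (r := fun i : Fin m => r i.succ) (MvPolynomial.finSuccEquiv ℂ m G)
        (B ^ ρ 0) (C1 * (B ^ ρ 0 : ℕ) * (CR * ((B : ℝ) ^ (-(κ / 2))) ^ (1 / ((q 0 : ℝ) + 1))))
          (fun i : Fin m => c i.succ)) := by
  classical
  obtain ⟨hbox, z, hz, hsm⟩ := hc
  set H := MvPolynomial.finSuccEquiv ℂ m G with hH
  set z' : Fin m → ℂ := fun i => z i.succ with hz'
  have hB' : (1 : ℝ) ≤ B := by exact_mod_cast hB
  have hB0 : (0 : ℝ) < B := by linarith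
  have hzc : z = Fin.cons (z 0) z' := (Fin.cons_self_tail z).symm
  have hGe : MvPolynomial.eval z G = (H.map (MvPolynomial.eval z')).eval (z 0) := by
    conv_lhs => rw [hzc]
    exact MvPolynomial.eval_eq_eval_mv_eval' z' (z 0) G
  set P' : ℝ := ∏ i : Fin m, max 1 ‖z' i‖ ^ q i.succ with hP'
  have hP0 : 0 < P' := Finset.prod_pos fun i _ => by positivity
  by_cases hA : ‖MvPolynomial.eval z' (H.coeff j0)‖ ≤ (B : ℝ) ^ (-(κ / 2)) * P'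
  · left
    exact ⟨(hbox 0).1, fun i => hbox i.succ, z', fun i => hz i.succ, hA⟩
  right
  push Not at hA
  refine ⟨fun i => (hbox i.succ).1, ?_⟩
  set δ : ℝ := (B : ℝ) ^ (-(κ / 2)) with hδ
  have hδ0 : 0 < δ := Real.rpow_pos_of_pos hB0 _
  set L : ℝ := δ * P' with hL
  have hL0 : 0 < L := mul_pos hδ0 hP0
  have hLn : ‖(L : ℂ)⁻¹‖ = L⁻¹ := by
    rw [norm_inv, Complex.norm_real, Real.norm_of_nonneg hL0.le]
  have hLC : (L : ℂ)⁻¹ ≠ 0 := inv_ne_zero (by exact_mod_cast hL0.ne')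
  set h : ℂ[X] := C ((L : ℂ)⁻¹) * H.map (MvPolynomial.eval z') with hh
  have hcoef : h.coeff j0 = (L : ℂ)⁻¹ * MvPolynomial.eval z' (H.coeff j0) := by
    rw [hh, coeff_C_mul, coeff_map]
  have hHd : h.natDegree ≤ q 0 := by
    refine (natDegree_C_mul_le _ _).trans (natDegree_map_le.trans ?_)
    rw [hH, MvPolynomial.natDegree_finSuccEquiv]
    exact hq
  have hj : 1 ≤ ‖h.coeff j0‖ := by
    rw [hcoef, norm_mul, hLn, inv_mul_eq_div, one_le_div hL0]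
    exact hA.le
  have hev : ‖h.eval (z 0)‖ ≤ δ * max 1 ‖z 0‖ ^ q 0 := by
    rw [hh, eval_mul, eval_C, norm_mul, hLn, ← hGe, inv_mul_le_iff₀ hL0]
    refine hsm.trans (le_of_eq ?_)
    rw [Fin.prod_univ_succ]
    have e1 : (B : ℝ) ^ (-κ) = δ * δ := by
      rw [hδ, ← Real.rpow_add hB0]
      congr 1
      ring
    rw [e1, hL, hP']
    ring
  have hX : 1 ≤ B ^ ρ 0 := Nat.one_le_pow _ _ hB
  rcases step_point σ hCR hC1 hconj hX (c 0) (hbox 0).1 h hHd j0 hj (z 0) (hz 0) δ hδ0 hev with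
    ⟨y, hy1, hy2⟩ | h2
  · refine ⟨bv (r 0) y, ?_, (hbox 0).1, hy2⟩
    unfold Bf
    refine Finset.mem_insert_of_mem (Finset.mem_image_of_mem _ ?_)
    unfold Yf
    rw [Finset.mem_biUnion]
    refine ⟨z', mem_Zf σ _ (fun i => (hbox i.succ).2) z' (fun i => hz i.succ), ?_⟩
    have hne : H.map (MvPolynomial.eval z') ≠ 0 := by
      intro h0
      rw [hcoef, ← coeff_map, h0, coeff_zero, mul_zero, norm_zero] at hj
      linarith
    rw [Multiset.mem_toFinset, mem_roots hne, IsRoot.def]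
    rw [hh, eval_mul, eval_C] at hy1
    exact (mul_eq_zero.mp hy1).resolve_left hLC
  · refine ⟨Pi.single (Fin.last (r 0)) 1, Finset.mem_insert_self _ _, (hbox 0).1, ?_⟩
    have e1 : ∑ j, σ (c 0 j : K) * (Pi.single (Fin.last (r 0)) 1 : Fin (r 0 + 1) → ℂ) j =
        σ (c 0 (Fin.last (r 0)) : K) := by
      rw [Finset.sum_eq_single (Fin.last (r 0))]
      · simp
      · intro j _ hj
        rw [Pi.single_eq_of_ne hj, mul_zero]
      · intro h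
        exact absurd (Finset.mem_univ _) h
    rw [e1]
    exact h2

theorem cast_pow_rpow (B k : ℕ) (x : ℝ) : (((B ^ k : ℕ) : ℝ)) ^ x = (B : ℝ) ^ ((k : ℝ) * x) := by
  push_cast
  rw [← Real.rpow_natCast, ← Real.rpow_mul (Nat.cast_nonneg B)]

theorem TB_card' {m : ℕ} (r ρ : Fin m → ℕ) (B : ℕ) (hB : 1 ≤ B) :
    (TB K r (fun i => B ^ ρ i)).Finite ∧ ((TB K r (fun i => B ^ ρ i)).ncard : ℝ) ≤
      (∏ i, (3 : ℝ) ^ (finrank ℚ K * (r i + 1))) *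
        (B : ℝ) ^ ((finrank ℚ K : ℝ) * ∑ i, (ρ i : ℝ) * (r i + 1)) := by
  have h := TB_card (K := K) r (fun i => B ^ ρ i) (fun i => Nat.one_le_pow _ _ hB)
  have hB' : (0 : ℝ) < B := by exact_mod_cast hB
  refine ⟨h.1, h.2.trans (le_of_eq ?_)⟩
  rw [Finset.prod_mul_distrib, Finset.mul_sum, Real.rpow_sum_of_pos hB']
  congr 1
  refine Finset.prod_congr rfl fun i _ => ?_
  rw [cast_pow_rpow]
  congr 1
  push_cast
  ring

theorem real_B {B : ℝ} (hB : 1 ≤ B) {ρ0 D κ t C1 CR CL : ℝ} (hC1 : 0 ≤ C1) (hCR : 0 ≤ CR)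
    (hCL : 0 ≤ CL) :
    CL * B ^ (ρ0 * (D - 1)) * (1 + C1 * B ^ ρ0 * (CR * (B ^ (-(κ / 2))) ^ t)) ≤
      (CL * (1 + C1 * CR)) * B ^ (ρ0 * D - min ρ0 (κ / 2 * t)) := by
  have hB0 : 0 < B := by linarith
  have e1 : B ^ (ρ0 * (D - 1)) = B ^ (ρ0 * D) * B ^ (-ρ0) := by
    rw [← Real.rpow_add hB0]; congr 1; ring
  have e2 : (B ^ (-(κ / 2))) ^ t = B ^ (-(κ / 2 * t)) := by
    rw [← Real.rpow_mul hB0.le]; congr 1; ring
  have e3 : B ^ (-ρ0) * B ^ ρ0 = 1 := by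
    rw [← Real.rpow_add hB0]; simp
  have e4 : B ^ (ρ0 * D - min ρ0 (κ / 2 * t)) = B ^ (ρ0 * D) * B ^ (-(min ρ0 (κ / 2 * t))) := by
    rw [← Real.rpow_add hB0]; congr 1
  have e5 : B ^ (-ρ0) ≤ B ^ (-(min ρ0 (κ / 2 * t))) :=
    Real.rpow_le_rpow_of_exponent_le hB (by linarith [min_le_left ρ0 (κ / 2 * t)])
  have e6 : B ^ (-(κ / 2 * t)) ≤ B ^ (-(min ρ0 (κ / 2 * t))) :=
    Real.rpow_le_rpow_of_exponent_le hB (by linarith [min_le_right ρ0 (κ / 2 * t)])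
  rw [e1, e2, e4]
  have hE : 0 < B ^ (ρ0 * D) := Real.rpow_pos_of_pos hB0 _
  calc CL * (B ^ (ρ0 * D) * B ^ (-ρ0)) * (1 + C1 * B ^ ρ0 * (CR * B ^ (-(κ / 2 * t))))
      = CL * B ^ (ρ0 * D) * (B ^ (-ρ0) + C1 * CR * (B ^ (-ρ0) * B ^ ρ0) * B ^ (-(κ / 2 * t))) := by
        ring
    _ = CL * B ^ (ρ0 * D) * (B ^ (-ρ0) + C1 * CR * B ^ (-(κ / 2 * t))) := by rw [e3, mul_one]
    _ ≤ CL * B ^ (ρ0 * D) * (B ^ (-(min ρ0 (κ / 2 * t))) +
          C1 * CR * B ^ (-(min ρ0 (κ / 2 * t)))) := by gcongr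
    _ = _ := by ring

theorem real_sum {B : ℝ} (hB : 1 ≤ B) {a b E D' ν₁ ν₂ : ℝ} (ha : 0 ≤ a) (hb : 0 ≤ b)
    {x y : ℝ} (hx : x ≤ a * (B ^ E * B ^ (D' - ν₁))) (hy : y ≤ b * (B ^ (E - ν₂) * B ^ D')) :
    x + y ≤ (a + b) * B ^ (E + D' - min ν₁ ν₂) := by
  have hB0 : 0 < B := by linarith
  have e1 : B ^ E * B ^ (D' - ν₁) ≤ B ^ (E + D' - min ν₁ ν₂) := by
    rw [← Real.rpow_add hB0]
    exact Real.rpow_le_rpow_of_exponent_le hB (by linarith [min_le_left ν₁ ν₂])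
  have e2 : B ^ (E - ν₂) * B ^ D' ≤ B ^ (E + D' - min ν₁ ν₂) := by
    rw [← Real.rpow_add hB0]
    exact Real.rpow_le_rpow_of_exponent_le hB (by linarith [min_le_right ν₁ ν₂])
  have := mul_le_mul_of_nonneg_left e1 ha
  have := mul_le_mul_of_nonneg_left e2 hb
  linarith

theorem base (σ : K →+* ℂ) (r ρ q : Fin 0 → ℕ) (G : MvPolynomial (Fin 0) ℂ) (hG : G ≠ 0) (κ : ℝ)
    (hκ : 0 < κ) : ∃ ν C : ℝ, 0 < ν ∧ ∀ B : ℕ, 1 ≤ B → ((PS K σ r ρ q G κ B).ncard : ℝ) ≤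
      C * (B : ℝ) ^ ((finrank ℚ K : ℝ) * ∑ i, (ρ i : ℝ) * (r i + 1) - ν) := by
  have hGC := MvPolynomial.eq_C_of_isEmpty G
  set g := MvPolynomial.coeff 0 G with hg
  have hg0 : g ≠ 0 := by
    intro h0
    rw [h0, map_zero] at hGC
    exact hG hGC
  have hgn : 0 < ‖g‖ := norm_pos_iff.mpr hg0
  refine ⟨κ, ‖g‖⁻¹, hκ, fun B hB => ?_⟩
  have hB0 : (0 : ℝ) < B := by exact_mod_cast hB
  rw [Finset.univ_eq_empty, Finset.sum_empty, mul_zero, zero_sub]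
  have hpos := Real.rpow_pos_of_pos hB0 (-κ)
  by_cases hne : (PS K σ r ρ q G κ B).Nonempty
  · obtain ⟨c, _, z, _, hz⟩ := hne
    rw [hGC, MvPolynomial.eval_C, Finset.univ_eq_empty, Finset.prod_empty, mul_one] at hz
    have h1 : (PS K σ r ρ q G κ B).ncard ≤ 1 := Set.ncard_le_one_of_subsingleton _
    have h2 : ((PS K σ r ρ q G κ B).ncard : ℝ) ≤ 1 := by exact_mod_cast h1
    refine h2.trans ?_
    rw [inv_mul_eq_div, one_le_div hgn]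
    exact hz
  · rw [Set.not_nonempty_iff_eq_empty.mp hne, Set.ncard_empty, Nat.cast_zero]
    positivity

theorem main (h1 : StmRoot) (h2 : StmLin) (K : Type) [Field K] [NumberField K] (σ : K →+* ℂ) :
    ∀ (m : ℕ) (r ρ q : Fin m → ℕ) (G : MvPolynomial (Fin m) ℂ), (∀ i, 1 ≤ r i) →
      (∀ i, 1 ≤ ρ i) → G ≠ 0 → (∀ i, G.degreeOf i ≤ q i) → ∀ κ : ℝ, 0 < κ →
      ∃ ν C : ℝ, 0 < ν ∧ ∀ B : ℕ, 1 ≤ B → ((PS K σ r ρ q G κ B).ncard : ℝ) ≤
        C * (B : ℝ) ^ ((finrank ℚ K : ℝ) * ∑ i, (ρ i : ℝ) * (r i + 1) - ν) := by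
  intro m
  induction m with
  | zero =>
    intro r ρ q G _ _ hG _ κ hκ
    exact base σ r ρ q G hG κ hκ
  | succ m ih =>
    intro r ρ q G hr hρ hG hq κ hκ
    set H := MvPolynomial.finSuccEquiv ℂ m G with hH
    have hH0 : H ≠ 0 := by
      intro h0
      apply hG
      apply (MvPolynomial.finSuccEquiv ℂ m).injective
      rw [← hH, h0, map_zero]
    obtain ⟨j0, hj0⟩ : ∃ j, H.coeff j ≠ 0 := by
      by_contra hcon
      push Not at hcon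
      exact hH0 (Polynomial.ext fun n => by rw [hcon n, coeff_zero])
    have hHd : H.natDegree ≤ q 0 := by
      rw [hH, MvPolynomial.natDegree_finSuccEquiv]
      exact hq 0
    obtain ⟨ν', C', hν', hC'⟩ := ih (fun i => r i.succ) (fun i => ρ i.succ) (fun i => q i.succ)
      (H.coeff j0) (fun i => hr _) (fun i => hρ _) hj0
      (fun i => (MvPolynomial.degreeOf_coeff_finSuccEquiv G i j0).trans (hq _)) (κ / 2)
      (by positivity)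
    obtain ⟨CR, hCR0, hCR⟩ := h1 (q 0) (r 0)
    obtain ⟨CL, hCL0, hCL⟩ := h2 K σ (r 0 + 1) (by omega)
    obtain ⟨C1, hC1, hconj⟩ := conj_bound σ
    set d : ℝ := (finrank ℚ K : ℝ) with hd
    have hC'0 : 0 ≤ C' := by
      have h3 := hC' 1 le_rfl
      rw [Nat.cast_one, Real.one_rpow, mul_one] at h3
      exact (Nat.cast_nonneg _).trans h3
    set t : ℝ := 1 / ((q 0 : ℝ) + 1) with ht
    have ht0 : 0 < t := by positivity
    set νB : ℝ := min (ρ 0 : ℝ) (κ / 2 * t) with hνB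
    have hνB0 : 0 < νB := by
      have : (0 : ℝ) < ρ 0 := by exact_mod_cast hρ 0
      exact lt_min this (by positivity)
    set N : ℕ := (∏ i : Fin m, r i.succ) * q 0 + 1 with hN
    set T3 : ℝ := ∏ i : Fin m, (3 : ℝ) ^ (finrank ℚ K * (r i.succ + 1)) with hT3
    have hT30 : 0 ≤ T3 := Finset.prod_nonneg fun _ _ => by positivity
    set D' : ℝ := d * ∑ i : Fin m, (ρ i.succ : ℝ) * (r i.succ + 1) with hD'
    set E : ℝ := (ρ 0 : ℝ) * (d * (r 0 + 1 : ℕ)) with hE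
    refine ⟨min ν' νB, 3 ^ (finrank ℚ K * (r 0 + 1)) * C' + N * (CL * (1 + C1 * CR)) * T3,
      lt_min hν' hνB0, ?_⟩
    intro B hB
    have hB' : (1 : ℝ) ≤ B := by exact_mod_cast hB
    have hB0 : (0 : ℝ) < B := by linarith
    have hX : 1 ≤ B ^ ρ 0 := Nat.one_le_pow _ _ hB
    set η : ℝ := C1 * (B ^ ρ 0 : ℕ) * (CR * ((B : ℝ) ^ (-(κ / 2))) ^ t) with hη
    have hη0 : 0 ≤ η := by positivity
    set T := TB K (fun i : Fin m => r i.succ) (fun i => B ^ ρ i.succ) with hT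
    obtain ⟨hTfin, hTcard⟩ := TB_card' (K := K) (fun i : Fin m => r i.succ)
      (fun i => ρ i.succ) B hB
    set P' := PS K σ (fun i : Fin m => r i.succ) (fun i => ρ i.succ) (fun i => q i.succ)
      (H.coeff j0) (κ / 2) B with hP'
    have hP'T : P' ⊆ T := fun c hc i => (hc.1 i).1
    have hP'fin : P'.Finite := hTfin.subset hP'T
    set SA : Set ((Fin (r 0 + 1) → 𝓞 K) × (∀ i : Fin m, Fin (r i.succ + 1) → 𝓞 K)) :=
      {p | p.1 ∈ Bx K (r 0 + 1) (B ^ ρ 0) ∧ p.2 ∈ P'} with hSA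
    set SB : Set ((Fin (r 0 + 1) → 𝓞 K) × (∀ i : Fin m, Fin (r i.succ + 1) → 𝓞 K)) :=
      {p | p.2 ∈ T ∧ p.1 ∈ Fy σ (r 0) (r := fun i : Fin m => r i.succ) H (B ^ ρ 0) η p.2} with hSB
    have hA := fib SA P' hP'fin (fun _ => Bx K (r 0 + 1) (B ^ ρ 0))
      (fun _ => Pool.Agent.N262.DR.Bx_finite _ _)
      (3 ^ (finrank ℚ K * (r 0 + 1)) * ((B ^ ρ 0 : ℕ) : ℝ) ^ ((finrank ℚ K : ℝ) * (r 0 + 1 : ℕ)))
      (fun _ _ => box_card _ _ hX) (fun p hp => ⟨hp.2, hp.1⟩)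
    have hBc := fib SB T hTfin
      (fun y => Fy σ (r 0) (r := fun i : Fin m => r i.succ) H (B ^ ρ 0) η y)
      (fun y => Fy_finite _ _ _ _ _ _) _
      (fun y _ => Fy_card σ (r 0) hCL H hHd (B ^ ρ 0) hX η hη0 y) (fun p hp => ⟨hp.1, hp.2⟩)
    -- the injection
    let φ : (∀ i : Fin (m + 1), Fin (r i + 1) → 𝓞 K) →
        (Fin (r 0 + 1) → 𝓞 K) × (∀ i : Fin m, Fin (r i.succ + 1) → 𝓞 K) :=
      fun c => (c 0, fun i => c i.succ)
    have hφ : Function.Injective φ := by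
      intro c c' h
      have h5 : c 0 = c' 0 := congrArg Prod.fst h
      have h6 : (fun i : Fin m => c i.succ) = fun i : Fin m => c' i.succ := congrArg Prod.snd h
      funext i
      refine Fin.cases h5 (fun j => ?_) i
      exact congrFun h6 j
    have hsub : φ '' PS K σ r ρ q G κ B ⊆ SA ∪ SB := by
      rintro _ ⟨c, hc, rfl⟩
      rcases incl σ hB j0 (hq 0) hCR hC1 hconj c hc with h5 | h5
      · exact Or.inl h5
      · exact Or.inr h5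
    have hcard : ((PS K σ r ρ q G κ B).ncard : ℝ) ≤ (SA.ncard : ℝ) + SB.ncard := by
      rw [← Set.ncard_image_of_injective _ hφ]
      have h5 := Set.ncard_le_ncard hsub (hA.1.union hBc.1)
      have h6 := Set.ncard_union_le SA SB
      exact_mod_cast h5.trans h6
    refine hcard.trans ?_
    rw [Fin.sum_univ_succ]
    have hexp : d * ((ρ 0 : ℝ) * (r 0 + 1) + ∑ i : Fin m, (ρ i.succ : ℝ) * (r i.succ + 1)) -
        min ν' νB = E + D' - min ν' νB := by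
      rw [hE, hD']
      push_cast
      ring
    rw [hexp]
    apply real_sum hB' (by positivity) (by positivity)
    · refine hA.2.trans ?_
      rw [cast_pow_rpow, ← hE, mul_assoc, mul_assoc]
      refine mul_le_mul_of_nonneg_left ?_ (by positivity)
      have h7 := hC' B hB
      calc (B : ℝ) ^ E * (P'.ncard : ℝ) ≤ (B : ℝ) ^ E * (C' * (B : ℝ) ^ (D' - ν')) :=
            mul_le_mul_of_nonneg_left h7 (Real.rpow_nonneg hB0.le _)
        _ = C' * ((B : ℝ) ^ E * (B : ℝ) ^ (D' - ν')) := by ring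
    · refine hBc.2.trans ?_
      have h8 := real_B hB' (ρ0 := (ρ 0 : ℝ)) (D := d * (r 0 + 1 : ℕ)) (κ := κ) (t := t)
        (C1 := C1) (CR := CR) (CL := CL) (by linarith) hCR0.le hCL0.le
      rw [cast_pow_rpow]
      have h9 : CL * (B : ℝ) ^ ((ρ 0 : ℝ) * ((finrank ℚ K : ℝ) * (r 0 + 1 : ℕ) - 1)) * (1 + η) ≤
          (CL * (1 + C1 * CR)) * (B : ℝ) ^ (E - νB) := by
        refine le_trans (le_of_eq ?_) h8
        rw [hη]
        push_cast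
        rw [Real.rpow_natCast]
      calc _ ≤ ((N : ℝ) * ((CL * (1 + C1 * CR)) * (B : ℝ) ^ (E - νB))) *
            (T3 * (B : ℝ) ^ D') := by
            refine mul_le_mul (mul_le_mul_of_nonneg_left h9 (Nat.cast_nonneg _)) hTcard
              (Nat.cast_nonneg _) (by positivity)
        _ = _ := by ring

/-- **PC/PXA** -/
theorem t (h1 : StmRoot) (h2 : StmLin) : StmPxa := by
  intro K _ _ σ m r ρ q G hr hρ hG hq κ hκ
  exact main h1 h2 K σ m r ρ q G hr hρ hG hq κ hκ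

end Pool.Agent.N434.PC
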